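import Mathlib

/-!
# TG: the degeneration

Over `R = k⟦t⟧` the map `φ = (Y ^ (n + 1) + t ^ (E n) Y) / (t (1 + Y ^ n))` has `2 n` different
critical points in `R`, of valuation `0` or `E`, and for each of them, and each `n'` such that
`n' + 1` divides `E`, the equation `φ'(y) = c` has no solution in `R`.
-/

set_option autoImplicit false

namespace Pool.Agent.Helper87.TG

open Polynomial

variable {k : Type*} [Field k]

local instance : IsDomain (PowerSeries k) := inferInstance

/-- Hensel's lemma for power series -/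
theorem hens (f : (PowerSeries k)[X]) (hf : f.Monic) (a : k)
    (h0 : (f.map PowerSeries.constantCoeff).eval a = 0)
    (h1 : (f.map PowerSeries.constantCoeff).derivative.eval a ≠ 0) :
    ∃ y : PowerSeries k, f.eval y = 0 ∧ PowerSeries.constantCoeff y = a := by
  have hcc : ∀ g : (PowerSeries k)[X], PowerSeries.constantCoeff (g.eval (PowerSeries.C a)) =
      (g.map PowerSeries.constantCoeff).eval a := by
    intro g
    rw [← Polynomial.eval_map_apply]
    simp
  have hmem : ∀ x : PowerSeries k, x ∈ Ideal.span {(PowerSeries.X : PowerSeries k)} ↔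
      PowerSeries.constantCoeff x = 0 := by
    intro x
    rw [Ideal.mem_span_singleton, PowerSeries.X_dvd_iff]
  obtain ⟨y, hy, hy2⟩ := HenselianRing.is_henselian
    (I := Ideal.span {(PowerSeries.X : PowerSeries k)}) f hf (PowerSeries.C a)
    (by rw [hmem, hcc, h0]) (by
      refine IsUnit.map _ ?_
      rw [PowerSeries.isUnit_iff_constantCoeff, hcc, Polynomial.derivative_map] at *
      exact isUnit_iff_ne_zero.2 h1)
  refine ⟨y, hy, ?_⟩
  rw [hmem, map_sub, PowerSeries.constantCoeff_C, sub_eq_zero] at hy2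
  exact hy2

/-- roots of units -/
theorem exists_root [IsAlgClosed k] [CharZero k] {n : ℕ} (hn : 1 ≤ n) (u : PowerSeries k)
    (hu : PowerSeries.constantCoeff u ≠ 0) : ∃ η : PowerSeries k, η ^ n = u := by
  obtain ⟨a, ha⟩ := IsAlgClosed.exists_pow_nat_eq (PowerSeries.constantCoeff u) hn
  have ha0 : a ≠ 0 := by
    rintro rfl
    rw [zero_pow (by omega)] at ha
    exact hu ha.symm
  obtain ⟨y, hy, -⟩ := hens (X ^ n - C u) (monic_X_pow_sub_C u (by omega)) a
    (by simp [ha]) (by
      simp only [Polynomial.map_sub, Polynomial.map_pow, map_X, map_C, derivative_sub,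
        derivative_X_pow, derivative_C, sub_zero, eval_mul, eval_C, eval_pow, eval_X]
      exact mul_ne_zero (by exact_mod_cast (show n ≠ 0 by omega)) (pow_ne_zero _ ha0))
  refine ⟨y, ?_⟩
  rw [eval_sub, eval_pow, eval_X, eval_C, sub_eq_zero] at hy
  exact hy

/-- `t ^ m` -/
noncomputable def tp (m : ℕ) : PowerSeries k := PowerSeries.X ^ m

/-- the polynomial with the critical points as roots -/
noncomputable def wp (n E : ℕ) : (PowerSeries k)[X] :=
  X ^ (2 * n) + C (((n : PowerSeries k) + 1) - ((n : PowerSeries k) - 1) * tp (E * n)) * X ^ n + C (tp (E * n))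

/-- the numerator -/
noncomputable def ff (n E : ℕ) : (PowerSeries k)[X] := X ^ (n + 1) + C (tp (E * n)) * X

/-- the denominator -/
noncomputable def gg (n : ℕ) : (PowerSeries k)[X] := C (tp 1) * (1 + X ^ n)

theorem wronskian {n E : ℕ} (hn : 1 ≤ n) :
    derivative (ff n E) * gg n - ff n E * derivative (gg n) =
      C (tp 1 : PowerSeries k) * wp n E := by
  obtain ⟨m, rfl⟩ : ∃ m, n = m + 1 := ⟨n - 1, by omega⟩
  unfold ff gg wp
  simp only [derivative_add, derivative_mul, derivative_X_pow, derivative_C, derivative_X,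
    derivative_one, map_add, map_sub, map_mul, Nat.add_sub_cancel, map_natCast, map_one,
    Nat.cast_add, Nat.cast_one]
  ring

theorem exists_z {n E : ℕ} [CharZero k] (hn : 1 ≤ n) (hE : 1 ≤ E) : ∃ z z' : PowerSeries k,
    PowerSeries.constantCoeff z ≠ 0 ∧ z * z' = tp (E * n) ∧
      -(z + z') = ((n : PowerSeries k) + 1) - ((n : PowerSeries k) - 1) * tp (E * n) := by
  have hEn : E * n ≠ 0 := Nat.mul_ne_zero (by omega) (by omega)
  set b : PowerSeries k := ((n : PowerSeries k) + 1) - ((n : PowerSeries k) - 1) * tp (E * n) with hb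
  have hcb : PowerSeries.constantCoeff b = (n + 1 : k) := by
    rw [hb]
    simp [tp, hEn]
  have hct : PowerSeries.constantCoeff (tp (E * n) : PowerSeries k) = 0 := by
    simp [tp, hEn]
  have hn1 : (n + 1 : k) ≠ 0 := by exact_mod_cast Nat.succ_ne_zero n
  have hdeg : (C b * X + C (tp (E * n) : PowerSeries k)).degree < ((2 : ℕ) : WithBot ℕ) :=
    lt_of_le_of_lt (degree_linear_le) (by norm_num)
  obtain ⟨z, hz, hz0⟩ := hens (X ^ 2 + (C b * X + C (tp (E * n))))
    (monic_X_pow_add (by exact_mod_cast hdeg)) (-(n + 1 : k))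
    (by
      simp only [Polynomial.map_add, Polynomial.map_pow, map_X, Polynomial.map_mul, map_C, eval_add,
        eval_pow, eval_X, eval_mul, eval_C, hcb, hct]
      ring) (by
      simp only [Polynomial.map_add, Polynomial.map_pow, map_X, Polynomial.map_mul, map_C,
        derivative_add, derivative_X_pow, derivative_mul, derivative_C, derivative_X, eval_add,
        eval_pow, eval_X, eval_mul, eval_C, hcb, hct]
      intro h
      apply hn1
      have h2 : ((2 : ℕ) : k) * (-(n + 1 : k)) ^ (2 - 1) + (0 * (-(n + 1 : k)) + (n + 1 : k) * 1) + 0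
          = -(n + 1 : k) := by norm_num; ring
      simp only [map_natCast, eval_natCast, eval_zero, eval_one, zero_mul, zero_add, mul_one,
        add_zero] at h h2
      rw [h2] at h
      exact neg_eq_zero.1 h)
  simp only [eval_add, eval_pow, eval_X, eval_mul, eval_C] at hz
  refine ⟨z, -b - z, ?_, ?_, ?_⟩
  · rw [hz0]
    exact neg_ne_zero.2 hn1
  · linear_combination -hz
  · ring

theorem cc_tp {m : ℕ} (hm : m ≠ 0) : PowerSeries.constantCoeff (tp m : PowerSeries k) = 0 := by
  simp [tp, hm]

theorem tp_add (a b : ℕ) : (tp (a + b) : PowerSeries k) = tp a * tp b := pow_add _ _ _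

theorem tp_mul (a b : ℕ) : (tp (a * b) : PowerSeries k) = tp a ^ b := pow_mul _ _ _

theorem tp_ne_zero (a : ℕ) : (tp a : PowerSeries k) ≠ 0 := pow_ne_zero _ PowerSeries.X_ne_zero

/-- the critical points -/
theorem exists_crit [IsAlgClosed k] [CharZero k] {n E : ℕ} (hn : 1 ≤ n) (hE : 1 ≤ E) :
    ∃ Cr : Finset (PowerSeries k), Cr.card = 2 * n ∧
      (wp n E : (PowerSeries k)[X]) = ∏ c ∈ Cr, (X - C c) ∧
      ∀ c ∈ Cr, ∃ (v : ℕ) (u : PowerSeries k), (v = 0 ∨ v = E) ∧
        PowerSeries.constantCoeff u ≠ 0 ∧ c = tp v * u := by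
  classical
  obtain ⟨z, z', hz0, hzz, hsum⟩ := exists_z (k := k) hn hE
  obtain ⟨η, hη⟩ := exists_root hn z hz0
  have hzinv : z * z⁻¹ = 1 := PowerSeries.mul_inv_cancel z hz0
  have hz0' : PowerSeries.constantCoeff (z⁻¹) ≠ 0 := by
    intro h
    have h1 := congrArg PowerSeries.constantCoeff hzinv
    rw [map_mul, h, mul_zero, map_one] at h1
    exact zero_ne_one h1
  obtain ⟨η', hη'⟩ := exists_root hn z⁻¹ hz0'
  have hz' : (tp E * η') ^ n = z' := by
    rw [mul_pow, hη', ← tp_mul, ← hzz]
    calc z * z' * z⁻¹ = z' * (z * z⁻¹) := by ring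
      _ = z' := by rw [hzinv, mul_one]
  have hη0 : PowerSeries.constantCoeff η ≠ 0 := by
    intro h
    apply hz0
    rw [← hη, map_pow, h, zero_pow (by omega)]
  have hη0' : PowerSeries.constantCoeff η' ≠ 0 := by
    intro h
    apply hz0'
    rw [← hη', map_pow, h, zero_pow (by omega)]
  have hnz : NeZero ((n : ℕ) : k) := ⟨by exact_mod_cast (show n ≠ 0 by omega)⟩
  obtain ⟨ω, hω⟩ := HasEnoughRootsOfUnity.exists_primitiveRoot k n
  have hζ : IsPrimitiveRoot (PowerSeries.C ω : PowerSeries k) n :=
    hω.map_of_injective PowerSeries.C_injective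
  have hω0 : ω ≠ 0 := hω.ne_zero (by omega)
  have hcc : ∀ i : ℕ, PowerSeries.constantCoeff ((PowerSeries.C ω : PowerSeries k) ^ i) ≠ 0 := by
    intro i
    rw [map_pow, PowerSeries.constantCoeff_C]
    exact pow_ne_zero _ hω0
  have hinj : ∀ a : PowerSeries k, a ≠ 0 →
      Set.InjOn (fun i : ℕ => (PowerSeries.C ω : PowerSeries k) ^ i * a) (Finset.range n : Finset ℕ) := by
    intro a ha i hi j hj hij
    exact hζ.pow_inj (Finset.mem_range.1 (Finset.mem_coe.1 hi))
      (Finset.mem_range.1 (Finset.mem_coe.1 hj)) (mul_right_cancel₀ ha hij)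
  have hηne : η ≠ 0 := fun h => hη0 (by rw [h, map_zero])
  have hηne' : (tp E * η' : PowerSeries k) ≠ 0 :=
    mul_ne_zero (tp_ne_zero E) fun h => hη0' (by rw [h, map_zero])
  set S₁ : Finset (PowerSeries k) :=
    (Finset.range n).image fun i => (PowerSeries.C ω : PowerSeries k) ^ i * η with hS₁
  set S₂ : Finset (PowerSeries k) :=
    (Finset.range n).image fun i => (PowerSeries.C ω : PowerSeries k) ^ i * (tp E * η') with hS₂
  have hdisj : Disjoint S₁ S₂ := by
    rw [Finset.disjoint_left]
    intro x hx1 hx2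
    obtain ⟨i, -, rfl⟩ := Finset.mem_image.1 hx1
    obtain ⟨j, -, hj⟩ := Finset.mem_image.1 hx2
    have h1 := congrArg PowerSeries.constantCoeff hj
    rw [map_mul, map_mul, map_mul, cc_tp (by omega), zero_mul, mul_zero] at h1
    exact mul_ne_zero (hcc i) hη0 h1.symm
  refine ⟨S₁ ∪ S₂, ?_, ?_, ?_⟩
  · rw [Finset.card_union_of_disjoint hdisj, hS₁, hS₂, Finset.card_image_of_injOn (hinj η hηne),
      Finset.card_image_of_injOn (hinj _ hηne'), Finset.card_range]
    ring
  · rw [Finset.prod_union hdisj, hS₁, hS₂, Finset.prod_image (hinj η hηne),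
      Finset.prod_image (hinj _ hηne'), ← X_pow_sub_C_eq_prod hζ (by omega) hη,
      ← X_pow_sub_C_eq_prod hζ (by omega) hz']
    unfold wp
    rw [← hsum, ← hzz]
    simp only [map_neg, map_add, map_mul]
    ring
  · intro c hc
    rcases Finset.mem_union.1 hc with hc | hc
    · obtain ⟨i, -, rfl⟩ := Finset.mem_image.1 hc
      refine ⟨0, (PowerSeries.C ω : PowerSeries k) ^ i * η, Or.inl rfl, ?_, ?_⟩
      · rw [map_mul]
        exact mul_ne_zero (hcc i) hη0
      · simp [tp]
    · obtain ⟨i, -, rfl⟩ := Finset.mem_image.1 hc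
      refine ⟨E, (PowerSeries.C ω : PowerSeries k) ^ i * η', Or.inr rfl, ?_, ?_⟩
      · rw [map_mul]
        exact mul_ne_zero (hcc i) hη0'
      · ring

/-- no solution of `φ(y) = c` in `R` -/
theorem no_sol {n E v : ℕ} (hn : 1 ≤ n) (hE : 2 ≤ E) (hdvd : (n + 1) ∣ E) (hv : v = 0 ∨ v = E)
    {u : PowerSeries k} (hu : PowerSeries.constantCoeff u ≠ 0) (y : PowerSeries k) :
    (ff n E).eval y ≠ tp v * u * (gg n).eval y := by
  intro h
  unfold ff gg at h
  simp only [eval_add, eval_pow, eval_X, eval_mul, eval_C, eval_one] at h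
  -- the right hand side
  have hy0 : PowerSeries.constantCoeff y = 0 := by
    have h1 := congrArg PowerSeries.constantCoeff h
    simp only [map_add, map_mul, map_pow, cc_tp one_ne_zero, zero_mul, mul_zero,
      cc_tp (show E * n ≠ 0 from Nat.mul_ne_zero (by omega) (by omega)), add_zero] at h1
    exact pow_eq_zero_iff (by omega) |>.1 h1
  have hr : tp v * u * (tp 1 * (1 + y ^ n)) = tp (v + 1) * (u * (1 + y ^ n)) := by
    rw [tp_add]
    ring
  have hr0 : PowerSeries.constantCoeff (u * (1 + y ^ n)) ≠ 0 := by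
    rw [map_mul, map_add, map_one, map_pow, hy0, zero_pow (by omega), add_zero, mul_one]
    exact hu
  have hord : ∀ (m : ℕ) (w : PowerSeries k), PowerSeries.constantCoeff w ≠ 0 →
      ∀ (m' : ℕ) (w' : PowerSeries k), PowerSeries.constantCoeff w' ≠ 0 →
      tp m * w = tp m' * w' → m = m' := by
    have key : ∀ (m : ℕ) (w : PowerSeries k) (m' : ℕ) (w' : PowerSeries k),
        PowerSeries.constantCoeff w ≠ 0 → tp m * w = tp m' * w' → ¬ m < m' := by
      intro m w m' w' hw hww hlt
      obtain ⟨j, rfl⟩ : ∃ j, m' = m + (j + 1) := ⟨m' - m - 1, by omega⟩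
      rw [tp_add, mul_assoc] at hww
      have h1 := mul_left_cancel₀ (tp_ne_zero m) hww
      apply hw
      rw [h1, map_mul, cc_tp (by omega), zero_mul]
    intro m w hw m' w' hw' hww
    have h1 := key m w m' w' hw hww
    have h2 := key m' w' m w hw' hww.symm
    omega
  rw [hr] at h
  have hyne : y ≠ 0 := by
    rintro rfl
    rw [zero_pow (by omega), mul_zero, add_zero] at h
    rcases mul_eq_zero.1 h.symm with h1 | h1
    · exact tp_ne_zero _ h1
    · apply hr0
      rw [h1, map_zero]
  obtain ⟨m, w, hw0, hyw⟩ : ∃ (m : ℕ) (w : PowerSeries k), PowerSeries.constantCoeff w ≠ 0 ∧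
      y = tp m * w := by
    refine ⟨y.order.toNat, _, ?_, (PowerSeries.X_pow_order_mul_divXPowOrder).symm⟩
    exact fun h0 => hyne (PowerSeries.constantCoeff_divXPowOrder_eq_zero_iff.1 h0)
  have hm1 : 1 ≤ m := by
    by_contra hm
    have hm0 : m = 0 := by omega
    rw [hyw, hm0] at hy0
    simp only [tp, pow_zero, one_mul] at hy0
    exact hw0 hy0
  by_cases hmE : m < E
  · -- the first term is dominant
    have h2 : y ^ (n + 1) + tp (E * n) * y =
        tp (m * (n + 1)) * (w ^ (n + 1) + tp ((E - m) * n) * w) := by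
      have h3 : tp (E * n) * tp m = tp (m * (n + 1)) * (tp ((E - m) * n) : PowerSeries k) := by
        rw [← tp_add, ← tp_add]
        congr 1
        have h4 : E * n = (E - m) * n + m * n := by
          rw [← Nat.add_mul, Nat.sub_add_cancel hmE.le]
        rw [h4]
        ring
      calc y ^ (n + 1) + tp (E * n) * y
          = tp (m * (n + 1)) * w ^ (n + 1) + (tp (E * n) * tp m) * w := by
            rw [hyw, mul_pow, tp_mul m (n + 1)]
            ring
        _ = tp (m * (n + 1)) * w ^ (n + 1) + (tp (m * (n + 1)) * tp ((E - m) * n)) * w := by rw [h3]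
        _ = _ := by ring
    have h3 := hord _ _ (by
      rw [map_add, map_mul, cc_tp (Nat.mul_ne_zero (by omega) (by omega)), zero_mul, add_zero, map_pow]
      exact pow_ne_zero _ hw0) _ _ hr0 (h2.symm.trans h)
    have h4 : (n + 1) ∣ v + 1 := ⟨m, by rw [← h3]; ring⟩
    have h5 : (n + 1) ∣ v := by
      rcases hv with rfl | rfl
      · exact dvd_zero _
      · exact hdvd
    have h6 : (n + 1) ∣ 1 := (Nat.dvd_add_right h5).1 h4
    have h7 := Nat.le_of_dvd one_pos h6
    omega
  · -- both terms are small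
    have hmE' : E ≤ m := not_lt.1 hmE
    have h2 : y ^ (n + 1) + tp (E * n) * y =
        tp (E * (n + 1)) * (tp ((m - E) * (n + 1)) * w ^ (n + 1) + tp (m - E) * w) := by
      have h3 : tp (E * (n + 1)) * tp ((m - E) * (n + 1)) = (tp (m * (n + 1)) : PowerSeries k) := by
        rw [← tp_add, ← Nat.add_mul, Nat.add_sub_cancel' hmE']
      have h4 : tp (E * (n + 1)) * tp (m - E) = (tp (E * n) * tp m : PowerSeries k) := by
        rw [← tp_add, ← tp_add]
        congr 1
        rw [Nat.mul_add, mul_one, Nat.add_assoc, Nat.add_sub_cancel' hmE']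
      calc y ^ (n + 1) + tp (E * n) * y
          = tp (m * (n + 1)) * w ^ (n + 1) + (tp (E * n) * tp m) * w := by
            rw [hyw, mul_pow, tp_mul m (n + 1)]
            ring
        _ = (tp (E * (n + 1)) * tp ((m - E) * (n + 1))) * w ^ (n + 1) +
            (tp (E * (n + 1)) * tp (m - E)) * w := by rw [h3, h4]
        _ = _ := by ring
    rw [h2] at h
    have h8 : v + 1 < E * (n + 1) := by
      have h9 : E * 2 ≤ E * (n + 1) := Nat.mul_le_mul_left _ (by omega)
      rcases hv with rfl | rfl <;> omega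
    obtain ⟨j, hj⟩ : ∃ j, E * (n + 1) = (v + 1) + (j + 1) := ⟨E * (n + 1) - (v + 1) - 1, by omega⟩
    rw [hj, tp_add, mul_assoc] at h
    have h1 := mul_left_cancel₀ (tp_ne_zero _) h
    apply hr0
    rw [← h1, map_mul, cc_tp (by omega), zero_mul]

end Pool.Agent.Helper87.TG
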