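import Mathlib
import Pool.Agent.Helper87.TG.Fam

/-!
# TG: the polynomials
-/

set_option autoImplicit false

namespace Pool.Agent.Helper87.TG

open Polynomial

section wr

variable {B : Type*} [CommRing B]

/-- `f' g - f g'` -/
noncomputable def wr (f g : B[X]) : B[X] := derivative f * g - f * derivative g

theorem wr_map {B' : Type*} [CommRing B'] (φ : B →+* B') (f g : B[X]) :
    (wr f g).map φ = wr (f.map φ) (g.map φ) := by
  unfold wr
  rw [Polynomial.map_sub, Polynomial.map_mul, Polynomial.map_mul, derivative_map, derivative_map]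

theorem natDegree_wr_le {n : ℕ} (hn : 1 ≤ n) (f g : B[X]) (hf : f.natDegree ≤ n + 1)
    (hg : g.natDegree ≤ n + 1) : (wr f g).natDegree ≤ 2 * n := by
  have key : ∀ f : B[X], f.natDegree ≤ n + 1 → ∃ (a : B) (f₁ : B[X]), f₁.natDegree ≤ n ∧
      f = C a * X ^ (n + 1) + f₁ := by
    intro f hf
    refine ⟨f.coeff (n + 1), f - C (f.coeff (n + 1)) * X ^ (n + 1), ?_, by ring⟩
    rw [natDegree_le_iff_coeff_eq_zero]
    intro N hN
    rw [coeff_sub, coeff_C_mul, coeff_X_pow]
    by_cases h : N = n + 1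
    · rw [if_pos h, h, mul_one, sub_self]
    · rw [if_neg h, mul_zero, sub_zero]
      exact coeff_eq_zero_of_natDegree_lt (by omega)
  obtain ⟨a, f₁, hf₁, rfl⟩ := key f hf
  obtain ⟨b, g₁, hg₁, rfl⟩ := key g hg
  have hf₁' : (derivative f₁).natDegree ≤ n - 1 := (natDegree_derivative_le f₁).trans (by omega)
  have hg₁' : (derivative g₁).natDegree ≤ n - 1 := (natDegree_derivative_le g₁).trans (by omega)
  have heq : wr (C a * X ^ (n + 1) + f₁) (C b * X ^ (n + 1) + g₁) =
      C (a * (n + 1)) * X ^ n * g₁ + C b * X ^ (n + 1) * derivative f₁ + derivative f₁ * g₁ -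
        C a * X ^ (n + 1) * derivative g₁ - C (b * (n + 1)) * X ^ n * f₁ -
        f₁ * derivative g₁ := by
    unfold wr
    simp only [derivative_add, derivative_mul, derivative_C, derivative_X_pow, Nat.add_sub_cancel,
      map_mul, map_add, map_natCast, map_one, Nat.cast_add, Nat.cast_one]
    ring
  rw [heq]
  have hX : ∀ (c : B) (m : ℕ), (C c * X ^ m : B[X]).natDegree ≤ m := fun c m =>
    natDegree_C_mul_X_pow_le c m
  have h1 : (C (a * (n + 1)) * X ^ n * g₁ : B[X]).natDegree ≤ 2 * n :=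
    (natDegree_mul_le_of_le (hX _ _) hg₁).trans (by omega)
  have h2 : (C b * X ^ (n + 1) * derivative f₁ : B[X]).natDegree ≤ 2 * n :=
    (natDegree_mul_le_of_le (hX _ _) hf₁').trans (by omega)
  have h3 : (derivative f₁ * g₁).natDegree ≤ 2 * n :=
    (natDegree_mul_le_of_le hf₁' hg₁).trans (by omega)
  have h4 : (C a * X ^ (n + 1) * derivative g₁ : B[X]).natDegree ≤ 2 * n :=
    (natDegree_mul_le_of_le (hX _ _) hg₁').trans (by omega)
  have h5 : (C (b * (n + 1)) * X ^ n * f₁ : B[X]).natDegree ≤ 2 * n :=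
    (natDegree_mul_le_of_le (hX _ _) hf₁).trans (by omega)
  have h6 : (f₁ * derivative g₁).natDegree ≤ 2 * n :=
    (natDegree_mul_le_of_le hf₁ hg₁').trans (by omega)
  exact (natDegree_sub_le_of_le (natDegree_sub_le_of_le (natDegree_sub_le_of_le
    (natDegree_add_le_of_degree_le (natDegree_add_le_of_degree_le h1 h2) h3) h4) h5) h6).trans
    (by simp)

end wr

section fam

variable {k : Type*} [Field k]

theorem natDegree_ff_le {n E : ℕ} : (ff n E : (PowerSeries k)[X]).natDegree ≤ n + 1 := by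
  unfold ff
  refine natDegree_add_le_of_degree_le (natDegree_X_pow_le _) ?_
  exact (natDegree_C_mul_le _ _).trans (natDegree_X_le.trans (by omega))

theorem natDegree_gg_le {n : ℕ} : (gg n : (PowerSeries k)[X]).natDegree ≤ n := by
  unfold gg
  refine (natDegree_C_mul_le _ _).trans ?_
  refine natDegree_add_le_of_degree_le ?_ (natDegree_X_pow_le _)
  rw [natDegree_one]
  exact Nat.zero_le _

theorem ff_coeff {n E : ℕ} (hn : 1 ≤ n) : (ff n E : (PowerSeries k)[X]).coeff (n + 1) = 1 := by
  unfold ff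
  rw [coeff_add, coeff_X_pow_self, coeff_C_mul, coeff_X, if_neg (by omega), mul_zero, add_zero]

theorem gg_coeff {n : ℕ} : (gg n : (PowerSeries k)[X]).coeff (n + 1) = 0 := by
  have h : (gg n : (PowerSeries k)[X]).natDegree ≤ n := natDegree_gg_le
  exact coeff_eq_zero_of_natDegree_lt (by omega)

theorem monic_fib {n E : ℕ} (hn : 1 ≤ n) (c : PowerSeries k) :
    (ff n E - C c * gg n : (PowerSeries k)[X]).Monic := by
  refine monic_of_natDegree_le_of_coeff_eq_one (n + 1) ?_ ?_
  · have h1 : (C c * gg n : (PowerSeries k)[X]).natDegree ≤ n + 1 :=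
      (natDegree_C_mul_le c (gg n)).trans (natDegree_gg_le.trans (Nat.le_succ n))
    have h0 : (ff n E : (PowerSeries k)[X]).natDegree ≤ n + 1 := natDegree_ff_le
    exact (natDegree_sub_le_of_le h0 h1).trans (max_self _).le
  · rw [coeff_sub, coeff_C_mul, gg_coeff, mul_zero, sub_zero, ff_coeff hn]

theorem wr_fam {n E : ℕ} (hn : 1 ≤ n) :
    wr (ff n E) (gg n) = C (tp 1 : PowerSeries k) * wp n E := wronskian hn

theorem monic_aux {B : Type*} [CommRing B] {n : ℕ} (hn : 1 ≤ n) (b τ : B) :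
    (X ^ (2 * n) + C b * X ^ n + C τ : B[X]).Monic := by
  rw [add_assoc]
  refine monic_X_pow_add ?_
  have h1 : (C b * X ^ n : B[X]).degree < ((2 * n : ℕ) : WithBot ℕ) :=
    (degree_C_mul_X_pow_le _ _).trans_lt (by exact_mod_cast (show n < 2 * n by omega))
  have h2 : (C τ : B[X]).degree < ((2 * n : ℕ) : WithBot ℕ) :=
    degree_C_le.trans_lt (by exact_mod_cast (show 0 < 2 * n by omega))
  exact (degree_add_le _ _).trans_lt (max_lt h1 h2)

theorem monic_wp {n E : ℕ} (hn : 1 ≤ n) : (wp n E : (PowerSeries k)[X]).Monic :=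
  monic_aux hn _ _

end fam

section gen

variable {s : ℕ} (d : Fin s → ℕ) {I B : Type*} [CommRing B]
  (co : (a : Fin s) → Fin 2 → Fin (d a + 1) → I)

/-- the polynomials with given coefficients -/
noncomputable def gp (A : I → B) (a : Fin s) (x : Fin 2) : B[X] :=
  ∑ j : Fin (d a + 1), C (A (co a x j)) * X ^ (j : ℕ)

theorem gp_map {B' : Type*} [CommRing B'] (φ : B →+* B') (A : I → B) (a : Fin s) (x : Fin 2) :
    (gp d co A a x).map φ = gp d co (fun i => φ (A i)) a x := by
  unfold gp
  simp only [Polynomial.map_sum, Polynomial.map_mul, map_C, Polynomial.map_pow, map_X]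

theorem natDegree_gp_le (A : I → B) (a : Fin s) (x : Fin 2) : (gp d co A a x).natDegree ≤ d a := by
  refine natDegree_sum_le_of_forall_le _ _ fun j _ => ?_
  exact (natDegree_C_mul_X_pow_le _ _).trans (by have := j.2; omega)

theorem gp_coeff (A : I → B) (a : Fin s) (x : Fin 2) (j : Fin (d a + 1)) :
    (gp d co A a x).coeff j = A (co a x j) := by
  unfold gp
  rw [finsetSum_coeff, Finset.sum_eq_single j]
  · rw [coeff_C_mul, coeff_X_pow_self, mul_one]
  · intro i _ hi
    rw [coeff_C_mul, coeff_X_pow, if_neg fun h => hi (Fin.ext h.symm), mul_zero]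
  · intro h
    exact absurd (Finset.mem_univ j) h

theorem exists_val (hco : Function.Injective
      fun x : (Σ a : Fin s, Fin 2 × Fin (d a + 1)) => co x.1 x.2.1 x.2.2)
    (P : Fin s → Fin 2 → B[X]) (hP : ∀ a x, (P a x).natDegree ≤ d a) :
    ∃ v : I → B, ∀ a x, gp d co v a x = P a x := by
  classical
  let c' : (Σ a : Fin s, Fin 2 × Fin (d a + 1)) → B := fun x => (P x.1 x.2.1).coeff x.2.2
  refine ⟨Function.extend
    (fun x : (Σ a : Fin s, Fin 2 × Fin (d a + 1)) => co x.1 x.2.1 x.2.2) c' 0, fun a x => ?_⟩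
  unfold gp
  have h1 : ∀ j : Fin (d a + 1), Function.extend
      (fun x : (Σ a : Fin s, Fin 2 × Fin (d a + 1)) => co x.1 x.2.1 x.2.2) c' 0 (co a x j) =
        (P a x).coeff j := fun j => hco.extend_apply c' 0 ⟨a, x, j⟩
  simp only [h1]
  rw [Fin.sum_univ_eq_sum_range (fun j => C ((P a x).coeff j) * X ^ j) (d a + 1)]
  exact (as_sum_range_C_mul_X_pow' (P a x) (Nat.lt_succ_of_le (hP a x))).symm

end gen

end Pool.Agent.Helper87.TG
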