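import Mathlib
import Pool.Agent.Helper97.PLN.Puis
import Pool.Agent.Helper87.TG.Poly

/-!
# TG: roots under homomorphisms, and the automorphism `t ^ (1 / N) ↦ ζ t ^ (1 / N)`
-/

set_option autoImplicit false

namespace Pool.Agent.Helper87.TG

open Polynomial

section scaled

variable {A M Λ : Type*} [CommRing A] [Field M] [Algebra A M] [Field Λ]

/-- the roots of a polynomial, times the leading coefficient, under a homomorphism -/
theorem exists_scaled [IsAlgClosed M] [FaithfulSMul A M] (π : integralClosure A M →+* Λ) (P : A[X])
    (hw : π (algebraMap A _ P.leadingCoeff) ≠ 0) : ∃ S : Multiset (integralClosure A M),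
      S.map (fun x : integralClosure A M => (x : M)) =
        (P.map (algebraMap A M)).roots.map (fun z => algebraMap A M P.leadingCoeff * z) ∧
      P.map (π.comp (algebraMap A (integralClosure A M))) =
        C (π (algebraMap A _ P.leadingCoeff)) *
          (S.map fun x => X - C (π x / π (algebraMap A _ P.leadingCoeff))).prod := by
  classical
  have hinj : Function.Injective (algebraMap A M) := FaithfulSMul.algebraMap_injective A M
  set w := P.leadingCoeff with hwdef
  set ρ := (P.map (algebraMap A M)).roots with hρ
  have hPM : P.map (algebraMap A M) = C (algebraMap A M w) * (ρ.map fun z => X - C z).prod := by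
    have h1 := (IsAlgClosed.splits (P.map (algebraMap A M))).eq_prod_roots
    rw [leadingCoeff_map_of_injective hinj] at h1
    exact h1
  have hint : ∀ z ∈ ρ, IsIntegral A (algebraMap A M w * z) := by
    intro z hz
    have h1 := (mem_roots'.1 hz).2
    rw [IsRoot.def, eval_map_algebraMap] at h1
    have h2 := isIntegral_leadingCoeff_smul P z h1
    rwa [Algebra.smul_def] at h2
  obtain ⟨S, hS⟩ : ∃ S : Multiset (integralClosure A M),
      S.map (fun x : integralClosure A M => (x : M)) = ρ.map (fun z => algebraMap A M w * z) := by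
    refine ⟨ρ.attach.map fun z => ⟨algebraMap A M w * z.1, hint z.1 z.2⟩, ?_⟩
    rw [Multiset.map_map]
    conv_rhs => rw [← Multiset.attach_map_val ρ]
    rw [Multiset.map_map]
    rfl
  refine ⟨S, hS, ?_⟩
  have hcard : S.card = ρ.card := by
    have h1 := congrArg Multiset.card hS
    rwa [Multiset.card_map, Multiset.card_map] at h1
  -- the identity over the integral closure
  have hO : C ((algebraMap A (integralClosure A M) w) ^ S.card) *
      P.map (algebraMap A (integralClosure A M)) =
      C (algebraMap A (integralClosure A M) w) *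
        (S.map fun x => C (algebraMap A (integralClosure A M) w) * X - C x).prod := by
    apply Polynomial.map_injective (algebraMap (integralClosure A M) M) Subtype.val_injective
    rw [Polynomial.map_mul, Polynomial.map_mul, Polynomial.map_map, map_C, map_C,
      ← IsScalarTower.algebraMap_eq, hPM]
    have h1 : ((S.map fun x => C (algebraMap A (integralClosure A M) w) * X - C x).prod).map
        (algebraMap (integralClosure A M) M) =
        C (algebraMap A M w ^ ρ.card) * (ρ.map fun z => X - C z).prod := by
      rw [← coe_mapRingHom, map_multiset_prod, Multiset.map_map]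
      have h2 : (S.map ((mapRingHom (algebraMap (integralClosure A M) M)) ∘ fun x =>
          C (algebraMap A (integralClosure A M) w) * X - C x)) =
          (S.map (fun x : integralClosure A M => (x : M))).map (fun y => C (algebraMap A M w) * X - C y) := by
        rw [Multiset.map_map]
        apply Multiset.map_congr rfl
        intro x _
        simp only [Function.comp_apply, coe_mapRingHom, Polynomial.map_sub, Polynomial.map_mul,
          map_C, map_X]
        rfl
      rw [h2, hS, Multiset.map_map]
      have h3 : (ρ.map ((fun y => C (algebraMap A M w) * X - C y) ∘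
          fun z => algebraMap A M w * z)) =
          ρ.map (fun z => C (algebraMap A M w) * (X - C z)) := by
        apply Multiset.map_congr rfl
        intro z _
        simp only [Function.comp_apply, map_mul]
        ring
      rw [h3, Multiset.prod_map_mul, Multiset.map_const', Multiset.prod_replicate, C_pow]
    rw [h1, map_pow, hcard]
    have h4 : algebraMap (integralClosure A M) M (algebraMap A (integralClosure A M) w) =
      algebraMap A M w := rfl
    rw [h4]
    ring
  have hΛ := congrArg (Polynomial.map π) hO
  rw [Polynomial.map_mul, Polynomial.map_mul, Polynomial.map_map, map_C, map_C, map_pow,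
    ← coe_mapRingHom π, map_multiset_prod, Multiset.map_map] at hΛ
  set w' := π (algebraMap A _ w) with hw'
  have h5 : (S.map ((mapRingHom π) ∘ fun x => C (algebraMap A (integralClosure A M) w) * X - C x)) =
      S.map (fun x => C w' * (X - C (π x / w'))) := by
    apply Multiset.map_congr rfl
    intro x _
    simp only [Function.comp_apply, coe_mapRingHom, Polynomial.map_sub, Polynomial.map_mul,
      map_C, map_X]
    rw [mul_sub, ← C_mul, mul_div_cancel₀ _ hw]
  rw [h5, Multiset.prod_map_mul, Multiset.map_const', Multiset.prod_replicate, ← C_pow] at hΛ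
  have h6 : (C (w' ^ S.card) : Λ[X]) ≠ 0 := by
    rw [Ne, C_eq_zero]
    exact pow_ne_zero _ hw
  apply mul_left_cancel₀ h6
  rw [hΛ]
  ring

/-- a root of a polynomial over the integral closure, times a number, under a homomorphism -/
theorem root_ratio (π : integralClosure A M →+* Λ) (P : (integralClosure A M)[X])
    {y : M} (hy : (P.map (algebraMap (integralClosure A M) M)).eval y = 0)
    {ℓ x : integralClosure A M} (hx : (x : M) = ℓ * y) (hℓ : π ℓ ≠ 0) :
    (P.map π).eval (π x / π ℓ) = 0 := by
  set m := P.natDegree with hm
  have h1 : ∑ j ∈ Finset.range (m + 1), P.coeff j * ℓ ^ (m - j) * x ^ j = 0 := by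
    apply Subtype.val_injective
    change algebraMap (integralClosure A M) M _ = algebraMap (integralClosure A M) M 0
    rw [map_zero, map_sum]
    have h2 := hy
    rw [eval_eq_sum_range' (n := m + 1) (lt_of_le_of_lt natDegree_map_le (Nat.lt_succ_self _))] at h2
    have h3 := congrArg (fun u => (ℓ : M) ^ m * u) h2
    simp only [mul_zero] at h3
    rw [← h3, Finset.mul_sum]
    refine Finset.sum_congr rfl fun j hj => ?_
    have hj' : j ≤ m := Nat.lt_succ_iff.1 (Finset.mem_range.1 hj)
    rw [coeff_map, map_mul, map_mul, map_pow, map_pow]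
    have h4 : algebraMap (integralClosure A M) M x = ℓ * y := hx
    have h5 : algebraMap (integralClosure A M) M ℓ = (ℓ : M) := rfl
    have h6 : (ℓ : M) ^ m = (ℓ : M) ^ (m - j) * (ℓ : M) ^ j := by
      rw [← pow_add, Nat.sub_add_cancel hj']
    rw [h4, h5, mul_pow, h6]
    ring
  rw [eval_eq_sum_range' (n := m + 1) (lt_of_le_of_lt natDegree_map_le (Nat.lt_succ_self _))]
  have h7 := congrArg π h1
  rw [map_zero, map_sum] at h7
  have h8 : π ℓ ^ m ≠ 0 := pow_ne_zero _ hℓ
  apply mul_left_cancel₀ h8
  rw [mul_zero, ← h7, Finset.mul_sum]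
  refine Finset.sum_congr rfl fun j hj => ?_
  have hj' : j ≤ m := Nat.lt_succ_iff.1 (Finset.mem_range.1 hj)
  rw [coeff_map, map_mul, map_mul, map_pow, map_pow, div_pow]
  have h6 : (π ℓ) ^ m = (π ℓ) ^ (m - j) * (π ℓ) ^ j := by
    rw [← pow_add, Nat.sub_add_cancel hj']
  rw [h6]
  field_simp

end scaled

section auto

variable {k : Type*} [Field k] [IsAlgClosed k] [CharZero k]

open Pool.Agent.Helper97.PLN.Pui

theorem rescale_xp {N : ℕ} (hN : N ≠ 0) {ζ : k} (hζ : ζ ^ N = 1) (f : PowerSeries k) :
    PowerSeries.rescale ζ (xp N hN f) = xp N hN f := by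
  ext n
  rw [PowerSeries.coeff_rescale]
  by_cases h : N ∣ n
  · obtain ⟨m, rfl⟩ := h
    rw [pow_mul, hζ, one_pow, one_mul]
  · have h1 : PowerSeries.coeff n (xp N hN f) = 0 := PowerSeries.coeff_expand_of_not_dvd N hN f h
    rw [h1, mul_zero]

theorem exists_xp {N : ℕ} (hN : N ≠ 0) {ζ : k} (hζ : IsPrimitiveRoot ζ N) (f : PowerSeries k)
    (hf : PowerSeries.rescale ζ f = f) : ∃ g, xp N hN g = f := by
  refine ⟨PowerSeries.mk fun m => PowerSeries.coeff (N * m) f, ?_⟩
  ext n
  by_cases h : N ∣ n
  · obtain ⟨m, rfl⟩ := h
    have h1 : PowerSeries.coeff (N * m) (xp N hN (PowerSeries.mk fun m =>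
        PowerSeries.coeff (N * m) f)) = _ := PowerSeries.coeff_expand_mul N hN _ m
    rw [h1, PowerSeries.coeff_mk]
  · have h1 : PowerSeries.coeff n (xp N hN (PowerSeries.mk fun m =>
        PowerSeries.coeff (N * m) f)) = 0 := PowerSeries.coeff_expand_of_not_dvd N hN _ h
    rw [h1]
    have h2 := congrArg (PowerSeries.coeff n) hf
    rw [PowerSeries.coeff_rescale] at h2
    by_contra h3
    apply h
    rw [← hζ.pow_eq_one_iff_dvd]
    have h4 : (ζ ^ n - 1) * PowerSeries.coeff n f = 0 := by rw [sub_mul, h2]; ring
    rcases mul_eq_zero.1 h4 with h5 | h5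
    · exact sub_eq_zero.1 h5
    · exact absurd h5.symm h3

theorem xp_injective {N : ℕ} (hN : N ≠ 0) : Function.Injective (xp N hN : PowerSeries k →+* _) := by
  intro f g h
  ext m
  have h1 := congrArg (PowerSeries.coeff (N * m)) h
  have h2 : ∀ f : PowerSeries k, PowerSeries.coeff (N * m) (xp N hN f) = PowerSeries.coeff m f :=
    fun f => PowerSeries.coeff_expand_mul N hN f m
  rwa [h2, h2] at h1

end auto

end Pool.Agent.Helper87.TG
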