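import Mathlib

/-!
# TG: two homomorphisms of an integral closure

Two homomorphisms to a field from the integral closure of `A` in a finite normal extension, which agree
on `A`, differ on finitely many elements by an element of the Galois group.
-/

set_option autoImplicit false

namespace Pool.Agent.Helper87.TG

open Polynomial

variable {A F N R Λ : Type*} [CommRing A] [IsDomain A] [IsIntegrallyClosed A] [Field F] [Algebra A F]
  [IsFractionRing A F] [Field N] [Algebra F N] [Algebra A N] [IsScalarTower A F N] [Normal F N]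
  [CommRing R] [Field Λ]

/-- the action on the integral closure -/
noncomputable def act (A : Type*) {F N : Type*} [CommRing A] [Field F] [Algebra A F] [Field N]
    [Algebra F N] [Algebra A N] [IsScalarTower A F N] (g : N ≃ₐ[F] N) :
    integralClosure A N →ₐ[A] integralClosure A N :=
  AlgHom.mapIntegralClosure ((g : N →ₐ[F] N).restrictScalars A)

theorem coe_act (g : N ≃ₐ[F] N) (x : integralClosure A N) : (act A g x : N) = g (x : N) := rfl

theorem root_image (π : integralClosure A N →+* Λ) (θ : integralClosure A N) (z : Λ)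
    (hz : ((minpoly A (θ : N)).map (π.comp (algebraMap A (integralClosure A N)))).eval z = 0) :
    ∃ g : N ≃ₐ[F] N, z = π (act A g θ) := by
  classical
  set q := minpoly A (θ : N) with hq
  have hθ : IsIntegral A (θ : N) := θ.2
  have hmonic : q.Monic := minpoly.monic hθ
  have hqF : minpoly F (θ : N) = q.map (algebraMap A F) :=
    minpoly.isIntegrallyClosed_eq_field_fractions' F hθ
  have hsplit : ((minpoly F (θ : N)).map (algebraMap F N)).Splits := Normal.splits inferInstance _
  have hqN : q.map (algebraMap A N) = (minpoly F (θ : N)).map (algebraMap F N) := by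
    rw [hqF, Polynomial.map_map, ← IsScalarTower.algebraMap_eq]
  set ρ := ((minpoly F (θ : N)).map (algebraMap F N)).roots with hρ
  have hprod : q.map (algebraMap A N) = (ρ.map fun a => X - C a).prod := by
    rw [hqN]
    refine hsplit.eq_prod_roots_of_monic ?_
    rw [← hqN]
    exact hmonic.map _
  have hint : ∀ a ∈ ρ, IsIntegral A a := by
    intro a ha
    refine ⟨q, hmonic, ?_⟩
    have h1 := (mem_roots'.1 ha).2
    rw [← hqN, IsRoot.def, eval_map] at h1
    exact h1
  obtain ⟨ρ', hρ'⟩ : ∃ ρ' : Multiset (integralClosure A N), ρ'.map Subtype.val = ρ :=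
    ⟨ρ.attach.map fun a => ⟨a.1, hint a.1 a.2⟩, by
      rw [Multiset.map_map]
      exact Multiset.attach_map_val ρ⟩
  have hprod' : q.map (algebraMap A (integralClosure A N)) = (ρ'.map fun a => X - C a).prod := by
    apply Polynomial.map_injective (algebraMap (integralClosure A N) N) Subtype.val_injective
    rw [Polynomial.map_map, ← IsScalarTower.algebraMap_eq, hprod, ← hρ', ← coe_mapRingHom,
      map_multiset_prod, Multiset.map_map, Multiset.map_map]
    congr 1
    apply Multiset.map_congr rfl
    intro a _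
    simp
  rw [← Polynomial.map_map, hprod', ← coe_mapRingHom, map_multiset_prod, Multiset.map_map,
    ← coe_evalRingHom, map_multiset_prod, Multiset.map_map, Multiset.prod_eq_zero_iff] at hz
  obtain ⟨a, ha, ha0⟩ := Multiset.mem_map.1 hz
  simp only [Function.comp_apply, coe_mapRingHom, Polynomial.map_sub, map_X, map_C,
    coe_evalRingHom, eval_sub, eval_X, eval_C, sub_eq_zero] at ha0
  have haρ : (a : N) ∈ ρ := by
    rw [← hρ']
    exact Multiset.mem_map_of_mem _ ha
  have h2 := (mem_roots'.1 haρ).2
  rw [IsRoot.def, eval_map_algebraMap] at h2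
  obtain ⟨g, hg⟩ := minpoly.exists_algEquiv_of_root' (K := F) (L := N) (x := (a : N)) (y := (θ : N))
    (Algebra.IsAlgebraic.isAlgebraic _) h2
  refine ⟨g, ?_⟩
  rw [ha0]
  congr 1
  exact Subtype.ext hg.symm

theorem finite_tuples {r : ℕ} (x : Fin r → integralClosure A N) :
    {τ : Fin r → integralClosure A N | ∃ g : N ≃ₐ[F] N, τ = fun k => act A g (x k)}.Finite := by
  classical
  have h1 : ∀ k, {y : integralClosure A N | aeval (y : N) (minpoly F (x k : N)) = 0}.Finite := by
    intro k
    have h2 : (((minpoly F (x k : N)).rootSet N)).Finite := rootSet_finite _ _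
    refine Set.Finite.subset (h2.preimage (f := (Subtype.val : integralClosure A N → N))
      Subtype.val_injective.injOn) ?_
    intro y hy
    rw [Set.mem_preimage, mem_rootSet]
    exact ⟨minpoly.ne_zero (Algebra.IsIntegral.isIntegral (x k : N)), hy⟩
  refine (Set.Finite.pi' h1).subset ?_
  rintro _ ⟨g, rfl⟩ k
  change aeval (g (x k : N)) (minpoly F (x k : N)) = 0
  rw [← AlgEquiv.coe_algHom, aeval_algHom_apply, minpoly.aeval, map_zero]

theorem exists_galois [CharZero Λ] (π : integralClosure A N →+* Λ)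
    (ι : R →+* Λ) (hι : Function.Injective ι) (π₀ : A →+* R)
    (hπ : ∀ a, π (algebraMap A _ a) = ι (π₀ a)) (σ : R →+* R) (hσ : ∀ a, σ (π₀ a) = π₀ a) {r : ℕ}
    (x : Fin r → integralClosure A N) (ρ : Fin r → R) (hx : ∀ k, π (x k) = ι (ρ k)) :
    ∃ g : N ≃ₐ[F] N, ∀ k, ι (σ (ρ k)) = π (act A g (x k)) := by
  classical
  have hB : ∀ B : ℕ, ∃ g : N ≃ₐ[F] N,
      ∑ k : Fin r, (B : Λ) ^ (k : ℕ) * ι (σ (ρ k)) =
        ∑ k : Fin r, (B : Λ) ^ (k : ℕ) * π (act A g (x k)) := by
    intro B
    set θ : integralClosure A N := ∑ k : Fin r, (B : integralClosure A N) ^ (k : ℕ) * x k with hθ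
    set τ : R := ∑ k : Fin r, (B : R) ^ (k : ℕ) * ρ k with hτ
    have h1 : π θ = ι τ := by
      rw [hθ, hτ, map_sum, map_sum]
      refine Finset.sum_congr rfl fun k _ => ?_
      rw [map_mul, map_mul, map_pow, map_pow, map_natCast, map_natCast, hx]
    have hcomp : π.comp (algebraMap A (integralClosure A N)) = ι.comp π₀ := RingHom.ext hπ
    have h2 : ((minpoly A (θ : N)).map π₀).eval τ = 0 := by
      apply hι
      rw [map_zero, ← Polynomial.eval_map_apply, Polynomial.map_map, ← hcomp, ← h1,
        ← Polynomial.map_map, Polynomial.eval_map_apply]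
      have h3 : ((minpoly A (θ : N)).map (algebraMap A (integralClosure A N))).eval θ = 0 := by
        apply Subtype.val_injective
        change algebraMap (integralClosure A N) N _ = _
        rw [← Polynomial.eval_map_apply, Polynomial.map_map, ← IsScalarTower.algebraMap_eq,
          eval_map_algebraMap]
        exact minpoly.aeval A (θ : N)
      rw [h3, map_zero]
    have h4 : ((minpoly A (θ : N)).map π₀).eval (σ τ) = 0 := by
      have h5 : ((minpoly A (θ : N)).map π₀).map σ = (minpoly A (θ : N)).map π₀ := by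
        rw [Polynomial.map_map]
        congr 1
        exact RingHom.ext hσ
      rw [← h5, Polynomial.eval_map_apply, h2, map_zero]
    obtain ⟨g, hg⟩ := root_image (F := F) π θ (ι (σ τ)) (by
      rw [hcomp, ← Polynomial.map_map, Polynomial.eval_map_apply, h4, map_zero])
    refine ⟨g, ?_⟩
    rw [hθ, hτ] at hg
    simpa only [map_sum, map_mul, map_pow, map_natCast] using hg
  have hT := finite_tuples (F := F) x
  let D : (Fin r → integralClosure A N) → Λ[X] := fun τ =>
    ∑ k : Fin r, C (ι (σ (ρ k)) - π (τ k)) * X ^ (k : ℕ)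
  have hD : ∏ τ ∈ hT.toFinset, D τ = 0 := by
    refine Polynomial.eq_zero_of_infinite_isRoot _ ?_
    refine Set.Infinite.mono ?_ (Set.infinite_range_of_injective (Nat.cast_injective (R := Λ)))
    rintro _ ⟨B, rfl⟩
    obtain ⟨g, hg⟩ := hB B
    rw [Set.mem_setOf_eq, IsRoot.def, eval_prod]
    refine Finset.prod_eq_zero (i := fun k => act A g (x k))
      (hT.mem_toFinset.2 ⟨g, rfl⟩) ?_
    simp only [D, eval_finsetSum, eval_mul, eval_C, eval_pow, eval_X]
    rw [← sub_eq_zero, ← Finset.sum_sub_distrib] at hg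
    rw [← hg]
    refine Finset.sum_congr rfl fun k _ => ?_
    ring
  obtain ⟨τ, hτ, hg⟩ := Finset.prod_eq_zero_iff.1 hD
  obtain ⟨g, rfl⟩ := hT.mem_toFinset.1 hτ
  refine ⟨g, fun k => ?_⟩
  have h1 := congrArg (fun p => coeff p (k : ℕ)) hg
  simp only [D, finsetSum_coeff, coeff_C_mul, coeff_X_pow, coeff_zero] at h1
  rw [Finset.sum_eq_single k] at h1
  · rw [if_pos rfl, mul_one, sub_eq_zero] at h1
    exact h1
  · intro j _ hj
    rw [if_neg fun h => hj (Fin.ext h.symm), mul_zero]
  · intro h
    exact absurd (Finset.mem_univ k) h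

/-- the same for a finite set -/
theorem exists_galois_set [CharZero Λ] (π : integralClosure A N →+* Λ)
    (ι : R →+* Λ) (hι : Function.Injective ι) (π₀ : A →+* R)
    (hπ : ∀ a, π (algebraMap A _ a) = ι (π₀ a)) (σ : R →+* R) (hσ : ∀ a, σ (π₀ a) = π₀ a)
    {S : Set (integralClosure A N)} (hS : S.Finite) (hSρ : ∀ x ∈ S, ∃ ρ : R, π x = ι ρ) :
    ∃ g : N ≃ₐ[F] N, ∀ x ∈ S, ∀ ρ : R, π x = ι ρ → ι (σ ρ) = π (act A g x) := by
  classical
  choose! f hf using hSρ
  let e := hS.toFinset.equivFin
  obtain ⟨g, hg⟩ := exists_galois (F := F) π ι hι π₀ hπ σ hσ (fun k => ((e.symm k : hS.toFinset) :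
    integralClosure A N)) (fun k => f (e.symm k : hS.toFinset))
    (fun k => hf _ (hS.mem_toFinset.1 (e.symm k).2))
  refine ⟨g, fun x hx ρ hρ => ?_⟩
  have h1 := hg (e ⟨x, hS.mem_toFinset.2 hx⟩)
  simp only [Equiv.symm_apply_apply] at h1
  rw [← h1]
  congr 2
  apply hι
  rw [← hρ, hf x hx]

end Pool.Agent.Helper87.TG
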