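import Mathlib
import Pool.Agent.Helper61.TH.Defs
import Pool.Agent.Helper53.SCD.Homs
import Pool.Agent.Helper87.TG.Scale
import Pool.Agent.Helper87.TG.Trick

/-!
# TG: the generic vector
-/

set_option autoImplicit false

namespace Pool.Agent.Helper87.TG

open Polynomial Pool.Agent.Helper61.TH Pool.Agent.Helper97.PLN.Pui

noncomputable section

variable {s : ℕ} {d : Fin s → ℕ}

theorem pl_coeff {B : Type*} [CommRing B] (c : Idx d → B) (a : Fin s) (x : Fin 2)
    (j : Fin (d a + 1)) : (pl c a x).coeff j = c ⟨a, (x, j)⟩ := by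
  unfold pl
  rw [finsetSum_coeff, Finset.sum_eq_single j]
  · rw [coeff_C_mul, coeff_X_pow_self, mul_one]
  · intro i _ hi
    rw [coeff_C_mul, coeff_X_pow, if_neg fun h => hi (Fin.ext h.symm), mul_zero]
  · intro h
    exact absurd (Finset.mem_univ j) h

theorem pl_coeff_last {B : Type*} [CommRing B] (c : Idx d → B) (a : Fin s) (x : Fin 2) :
    (pl c a x).coeff (d a) = lc c a x := by
  have h := pl_coeff c a x (Fin.last (d a))
  rwa [Fin.val_last] at h

theorem natDegree_pl_le {B : Type*} [CommRing B] (c : Idx d → B) (a : Fin s) (x : Fin 2) :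
    (pl c a x).natDegree ≤ d a := by
  refine natDegree_sum_le_of_forall_le _ _ fun j _ => ?_
  exact (natDegree_C_mul_X_pow_le _ _).trans (by have := j.2; omega)

theorem pl_val {B : Type*} [CommRing B] (P : Fin s → Fin 2 → B[X])
    (hP : ∀ a x, (P a x).natDegree ≤ d a) (a : Fin s) (x : Fin 2) :
    pl (fun q : Idx d => (P q.1 q.2.1).coeff q.2.2) a x = P a x := by
  unfold pl
  rw [Fin.sum_univ_eq_sum_range (fun j => C ((P a x).coeff j) * X ^ j) (d a + 1)]
  exact (as_sum_range_C_mul_X_pow' (P a x) (Nat.lt_succ_of_le (hP a x))).symm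

theorem wr_eq {B : Type*} [CommRing B] (c : Idx d → B) (a : Fin s) :
    Pool.Agent.Helper61.TH.wr c a = Pool.Agent.Helper87.TG.wr (pl c a 0) (pl c a 1) := rfl

theorem natDegree_wr_le' {B : Type*} [CommRing B] (hd : ∀ a, 2 ≤ d a) (c : Idx d → B) (a : Fin s) :
    (Pool.Agent.Helper61.TH.wr c a).natDegree ≤ 2 * (d a - 1) := by
  rw [wr_eq]
  have h := hd a
  exact natDegree_wr_le (by omega) _ _ ((natDegree_pl_le c a 0).trans (by omega))
    ((natDegree_pl_le c a 1).trans (by omega))

/-- the special maps -/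
def fam (k : Type*) [Field k] (d : Fin s → ℕ) (E : ℕ) (a : Fin s) (x : Fin 2) :
    (PowerSeries k)[X] := if x = 0 then ff (d a - 1) E else gg (d a - 1)

theorem natDegree_fam_le {k : Type*} [Field k] (hd : ∀ a, 2 ≤ d a) (E : ℕ) (a : Fin s) (x : Fin 2) :
    (fam k d E a x).natDegree ≤ d a := by
  have h := hd a
  unfold fam
  split_ifs
  · exact natDegree_ff_le.trans (by omega)
  · exact natDegree_gg_le.trans (by omega)

/-- the special coefficient vector -/
def vv (k : Type*) [Field k] (d : Fin s → ℕ) (E : ℕ) (q : Idx d) : PowerSeries k :=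
  (fam k d E q.1 q.2.1).coeff q.2.2

variable (K : Type) [Field K] [CharZero K] (hd : ∀ a, 2 ≤ d a)

theorem pl_vv {k : Type*} [Field k] (hd : ∀ a, 2 ≤ d a) (E : ℕ) (a : Fin s) (x : Fin 2) :
    pl (vv k d E) a x = fam k d E a x :=
  pl_val (fam k d E) (natDegree_fam_le hd E) a x

theorem wr_vv {k : Type*} [Field k] (hd : ∀ a, 2 ≤ d a) (E : ℕ) (a : Fin s) :
    Pool.Agent.Helper61.TH.wr (vv k d E) a =
      C (tp 1 : PowerSeries k) * wp (d a - 1) E := by
  have h := hd a
  rw [wr_eq, pl_vv hd, pl_vv hd]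
  exact wr_fam (by omega)

/-- the data of the specialisation -/
structure Spec (K : Type) [Field K] {s : ℕ} (d : Fin s → ℕ) (Λ : Type) [Field Λ] where
  R : Type
  [ringR : CommRing R]
  [domR : IsDomain R]
  π₀ : MvPolynomial (Idx d) K →+* R
  ι : R →+* Λ
  hι : Function.Injective ι
  σ : R →+* R
  hσ : ∀ a, σ (π₀ a) = π₀ a
  t : R
  ht : t ≠ 0
  hσt : σ t = t
  Cr : Fin s → Finset R
  hCr : ∀ a, ∀ c ∈ Cr a, σ c = c
  hwr : ∀ a, (Pool.Agent.Helper61.TH.wr (fun q => (MvPolynomial.X q : MvPolynomial (Idx d) K)) a).map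
    π₀ = C t * ∏ c ∈ Cr a, (X - C c)
  hcard : ∀ a, (Cr a).card = 2 * (d a - 1)
  hlc0 : ∀ b, π₀ (MvPolynomial.X ⟨b, (0, Fin.last (d b))⟩) = 1
  hlc1 : ∀ b, π₀ (MvPolynomial.X ⟨b, (1, Fin.last (d b))⟩) = 0
  Γ : Set R
  hΓ : ∀ y ∈ Γ, σ y ≠ y
  hfib : ∀ a b, ∀ c ∈ Cr a, ∀ y : Λ,
    (((pl (fun q => (MvPolynomial.X q : MvPolynomial (Idx d) K)) b 0).map π₀ -
      C c * (pl (fun q => (MvPolynomial.X q : MvPolynomial (Idx d) K)) b 1).map π₀).map ι).eval y = 0 →
    ∃ γ ∈ Γ, y = ι γ

attribute [instance] Spec.ringR Spec.domR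

/-- the generic coefficient vector -/
abbrev XX (K : Type) [Field K] {s : ℕ} (d : Fin s → ℕ) (q : Idx d) : MvPolynomial (Idx d) K :=
  MvPolynomial.X q

section star

variable {K : Type} [Field K] [CharZero K] {Λ : Type} [Field Λ] [IsAlgClosed Λ] [CharZero Λ]

open Pool.Agent.Helper61.TH (wr)

theorem natDegree_wr_gen (hd : ∀ a, 2 ≤ d a) (S : Spec K d Λ) (a : Fin s) :
    (Pool.Agent.Helper61.TH.wr (XX K d) a).natDegree = 2 * (d a - 1) ∧
      S.π₀ (Pool.Agent.Helper61.TH.wr (XX K d) a).leadingCoeff = S.t := by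
  have h1 := natDegree_wr_le' hd (XX K d) a
  have h2 := S.hwr a
  have hprod : (∏ c ∈ S.Cr a, (X - C c) : S.R[X]).Monic := monic_prod_X_sub_C _ _
  have hdeg : (∏ c ∈ S.Cr a, (X - C c) : S.R[X]).natDegree = 2 * (d a - 1) := by
    rw [natDegree_prod_of_monic _ _ fun c _ => monic_X_sub_C c]
    simp [S.hcard a]
  have h3 : S.π₀ ((Pool.Agent.Helper61.TH.wr (XX K d) a).coeff (2 * (d a - 1))) = S.t := by
    have h4 := congrArg (fun p => coeff p (2 * (d a - 1))) h2
    simp only [coeff_map, coeff_C_mul] at h4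
    rw [← hdeg, hprod.coeff_natDegree, mul_one, hdeg] at h4
    exact h4
  have h5 : (Pool.Agent.Helper61.TH.wr (XX K d) a).natDegree = 2 * (d a - 1) := by
    refine le_antisymm h1 (le_natDegree_of_ne_zero fun h => S.ht ?_)
    rw [← h3, h, map_zero]
  refine ⟨h5, ?_⟩
  rw [leadingCoeff, h5]
  exact h3

/-- the algebraic closure of the field of rational functions -/
abbrev MM (K : Type) [Field K] {s : ℕ} (d : Fin s → ℕ) : Type :=
  AlgebraicClosure (FractionRing (MvPolynomial (Idx d) K))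

/-- the integral closure -/
abbrev OO (K : Type) [Field K] {s : ℕ} (d : Fin s → ℕ) :=
  integralClosure (MvPolynomial (Idx d) K) (MM K d)

theorem inj_MM : Function.Injective (algebraMap (MvPolynomial (Idx d) K) (MM K d)) := by
  rw [IsScalarTower.algebraMap_eq (MvPolynomial (Idx d) K)
    (FractionRing (MvPolynomial (Idx d) K)) (MM K d)]
  exact (algebraMap (FractionRing (MvPolynomial (Idx d) K)) (MM K d)).injective.comp
    (IsFractionRing.injective _ _)

instance faith_MM : FaithfulSMul (MvPolynomial (Idx d) K) (MM K d) :=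
  (faithfulSMul_iff_algebraMap_injective _ _).2 inj_MM

theorem crit_facts (hd : ∀ a, 2 ≤ d a) (S : Spec K d Λ) (π : OO K d →+* Λ)
    (hπ : ∀ f, π (algebraMap _ _ f) = S.ι (S.π₀ f)) (a : Fin s) :
    ∃ Sm : Multiset (OO K d),
      (∀ z : MM K d, aeval z (Pool.Agent.Helper61.TH.wr (XX K d) a) = 0 → ∃ x ∈ Sm, (x : MM K d) =
        algebraMap _ _ (Pool.Agent.Helper61.TH.wr (XX K d) a).leadingCoeff * z) ∧
      (∀ x ∈ Sm, ∃ c ∈ S.Cr a, π x = S.ι (S.t * c)) ∧
      ∀ x ∈ Sm, ∀ x' ∈ Sm, π x = π x' → x = x' := by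
  classical
  obtain ⟨hdeg, hlead⟩ := natDegree_wr_gen hd S a
  set P := Pool.Agent.Helper61.TH.wr (XX K d) a with hP
  have hιt : S.ι S.t ≠ 0 := fun h => S.ht (S.hι (by rw [h, map_zero]))
  have hw : π (algebraMap _ _ P.leadingCoeff) = S.ι S.t := by rw [hπ, hlead]
  obtain ⟨Sm, hSm, hSm2⟩ := exists_scaled π P (by rw [hw]; exact hιt)
  have hcomp : π.comp (algebraMap (MvPolynomial (Idx d) K) (OO K d)) = S.ι.comp S.π₀ :=
    RingHom.ext hπ
  have h1 : P.map (π.comp (algebraMap (MvPolynomial (Idx d) K) (OO K d))) =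
      C (S.ι S.t) * (((S.Cr a).val.map S.ι).map fun c => X - C c).prod := by
    rw [hcomp, ← Polynomial.map_map, S.hwr a, Polynomial.map_mul, map_C, Polynomial.map_prod]
    congr 1
    rw [Multiset.map_map, Finset.prod_eq_multiset_prod]
    congr 1
    apply Multiset.map_congr rfl
    intro c _
    simp
  have h2 : ((Sm.map fun x => π x / S.ι S.t).map fun c => X - C c).prod =
      (((S.Cr a).val.map S.ι).map fun c => X - C c).prod := by
    have h3 : (C (S.ι S.t) : Λ[X]) ≠ 0 := C_ne_zero.2 hιt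
    apply mul_left_cancel₀ h3
    rw [← h1, hSm2, hw, Multiset.map_map]
    rfl
  have h3 : (Sm.map fun x => π x / S.ι S.t) = (S.Cr a).val.map S.ι := by
    have h4 := congrArg Polynomial.roots h2
    rwa [roots_multiset_prod_X_sub_C, roots_multiset_prod_X_sub_C] at h4
  have hnodup : (Sm.map fun x => π x / S.ι S.t).Nodup := by
    rw [h3]
    exact (S.Cr a).nodup.map S.hι
  refine ⟨Sm, ?_, ?_, ?_⟩
  · intro z hz
    have hP0 : P.map (algebraMap (MvPolynomial (Idx d) K) (MM K d)) ≠ 0 := by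
      rw [Polynomial.map_ne_zero_iff inj_MM]
      rintro h0
      rw [h0, leadingCoeff_zero, map_zero] at hlead
      exact S.ht hlead.symm
    have h4 : z ∈ (P.map (algebraMap (MvPolynomial (Idx d) K) (MM K d))).roots := by
      rw [mem_roots hP0, IsRoot.def, eval_map_algebraMap]
      exact hz
    have h5 := Multiset.mem_map_of_mem
      (fun z => algebraMap _ (MM K d) P.leadingCoeff * z) h4
    rw [← hSm] at h5
    obtain ⟨x, hx, hx2⟩ := Multiset.mem_map.1 h5
    exact ⟨x, hx, hx2⟩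
  · intro x hx
    have h4 := Multiset.mem_map_of_mem (fun x => π x / S.ι S.t) hx
    rw [h3] at h4
    obtain ⟨c, hc, hc2⟩ := Multiset.mem_map.1 h4
    refine ⟨c, hc, ?_⟩
    rw [map_mul, hc2, mul_div_cancel₀ _ hιt]
  · intro x hx x' hx' h
    exact Multiset.inj_on_of_nodup_map hnodup x hx x' hx' (by simp only [h])

/-- the coefficients in the field of rational functions -/
abbrev XF (K : Type) [Field K] {s : ℕ} (d : Fin s → ℕ) (q : Idx d) :
    FractionRing (MvPolynomial (Idx d) K) :=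
  algebraMap (MvPolynomial (Idx d) K) (FractionRing (MvPolynomial (Idx d) K)) (MvPolynomial.X q)

theorem wr_XF (a : Fin s) : Pool.Agent.Helper61.TH.wr (XF K d) a =
    (Pool.Agent.Helper61.TH.wr (XX K d) a).map
      (algebraMap (MvPolynomial (Idx d) K) (FractionRing (MvPolynomial (Idx d) K))) :=
  (map_wr _ _ _).symm

theorem pl_XF (a : Fin s) (x : Fin 2) : pl (XF K d) a x =
    (pl (XX K d) a x).map
      (algebraMap (MvPolynomial (Idx d) K) (FractionRing (MvPolynomial (Idx d) K))) :=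
  (map_pl _ _ _ _).symm

theorem aeval_wr_XF (a : Fin s) (z : MM K d) :
    aeval z (Pool.Agent.Helper61.TH.wr (XF K d) a) =
      aeval z (Pool.Agent.Helper61.TH.wr (XX K d) a) := by
  rw [wr_XF, aeval_map_algebraMap]

theorem aeval_pl_XF (a : Fin s) (x : Fin 2) (z : MM K d) :
    aeval z (pl (XF K d) a x) = aeval z (pl (XX K d) a x) := by
  rw [pl_XF, aeval_map_algebraMap]

theorem star_of_spec (hd : ∀ a, 2 ≤ d a) (S : Spec K d Λ) :
    ∃ γ : MM K d ≃ₐ[FractionRing (MvPolynomial (Idx d) K)] MM K d, Star (XF K d) γ := by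
  classical
  obtain ⟨π, hπ⟩ := Pool.Agent.H53SCD.exists_hom_ext (A := MvPolynomial (Idx d) K) (B := OO K d)
    (F := Λ) (S.ι.comp S.π₀)
  have hπ' : ∀ f, π (algebraMap _ _ f) = S.ι (S.π₀ f) := hπ
  choose Sm hSm1 hSm2 hSm3 using fun a => crit_facts hd S π hπ' a
  have hlead0 : ∀ a, (Pool.Agent.Helper61.TH.wr (XX K d) a).leadingCoeff ≠ 0 := by
    intro a h
    apply S.ht
    rw [← (natDegree_wr_gen hd S a).2, h, map_zero]
  have hιt : S.ι S.t ≠ 0 := fun h => S.ht (S.hι (by rw [h, map_zero]))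
  set w : Fin s → MvPolynomial (Idx d) K :=
    fun a => (Pool.Agent.Helper61.TH.wr (XX K d) a).leadingCoeff with hw
  have hwM : ∀ a, algebraMap (MvPolynomial (Idx d) K) (MM K d) (w a) ≠ 0 := fun a h =>
    hlead0 a (inj_MM (by rw [map_zero]; exact h))
  have hπw : ∀ a, π (algebraMap _ _ (w a)) = S.ι S.t := fun a => by
    rw [hπ', (natDegree_wr_gen hd S a).2]
  -- the number `ℓ`
  let ell : Fin s → Fin s → OO K d → OO K d := fun a b x =>
    algebraMap _ _ (w a) * algebraMap _ _ (XX K d ⟨b, (0, Fin.last (d b))⟩) -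
      x * algebraMap _ _ (XX K d ⟨b, (1, Fin.last (d b))⟩)
  have hell : ∀ a b x, π (ell a b x) = S.ι S.t := by
    intro a b x
    simp only [ell]
    rw [map_sub, map_mul, map_mul, hπw, hπ', hπ', S.hlc0, S.hlc1, map_one, map_zero, mul_one,
      mul_zero, sub_zero]
  have hellne : ∀ a b x, ell a b x ≠ 0 := by
    intro a b x h
    apply hιt
    rw [← hell a b x, h, map_zero]
  -- coordinates in `M`
  have hellM : ∀ a b (x : OO K d) (z : MM K d), (x : MM K d) = algebraMap _ _ (w a) * z →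
      (ell a b x : MM K d) = algebraMap _ _ (w a) *
        (algebraMap _ _ (XX K d ⟨b, (0, Fin.last (d b))⟩) -
          z * algebraMap _ _ (XX K d ⟨b, (1, Fin.last (d b))⟩)) := by
    intro a b x z hx
    have h1 : (ell a b x : MM K d) = algebraMap _ _ (w a) *
        algebraMap _ _ (XX K d ⟨b, (0, Fin.last (d b))⟩) -
          (x : MM K d) * algebraMap _ _ (XX K d ⟨b, (1, Fin.last (d b))⟩) := rfl
    rw [h1, hx]
    ring
  -- the leading coefficients of the fibres
  have hlead : ∀ a b (z : MM K d), aeval z (Pool.Agent.Helper61.TH.wr (XX K d) a) = 0 →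
      algebraMap (MvPolynomial (Idx d) K) (MM K d) (XX K d ⟨b, (0, Fin.last (d b))⟩) ≠
        z * algebraMap _ _ (XX K d ⟨b, (1, Fin.last (d b))⟩) := by
    intro a b z hz h
    obtain ⟨x, -, hx⟩ := hSm1 a z hz
    apply hellne a b x
    apply Subtype.val_injective
    change (ell a b x : MM K d) = _
    rw [hellM a b x z hx, h, sub_self, mul_zero]
    rfl
  -- the fibre polynomials
  have hfibne : ∀ a b (z : MM K d), aeval z (Pool.Agent.Helper61.TH.wr (XX K d) a) = 0 →
      ((pl (XX K d) b 0).map (algebraMap _ (MM K d)) -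
        C z * (pl (XX K d) b 1).map (algebraMap _ (MM K d))) ≠ 0 := by
    intro a b z hz h
    apply hlead a b z hz
    have h1 := congrArg (fun p => coeff p (d b)) h
    simp only [coeff_sub, coeff_C_mul, coeff_map, pl_coeff_last, coeff_zero] at h1
    exact sub_eq_zero.1 h1
  have hfibroot : ∀ b (z y : MM K d), aeval y (pl (XX K d) b 0) = z * aeval y (pl (XX K d) b 1) →
      ((pl (XX K d) b 0).map (algebraMap _ (MM K d)) -
        C z * (pl (XX K d) b 1).map (algebraMap _ (MM K d))).eval y = 0 := by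
    intro b z y h
    rw [eval_sub, eval_mul, eval_C, eval_map_algebraMap, eval_map_algebraMap, h, sub_self]
  -- integrality of the scaled points of the fibres
  have hyint : ∀ a b (x : OO K d) (z y : MM K d), (x : MM K d) = algebraMap _ _ (w a) * z →
      aeval y (pl (XX K d) b 0) = z * aeval y (pl (XX K d) b 1) →
      ∃ x' : OO K d, (x' : MM K d) = (ell a b x : MM K d) * y ∧
        ∀ c ∈ S.Cr a, π x = S.ι (S.t * c) → ∃ γ ∈ S.Γ, π x' = S.ι (S.t * γ) := by
    intro a b x z y hx hy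
    let Py : (OO K d)[X] := C (algebraMap _ _ (w a)) * (pl (XX K d) b 0).map (algebraMap _ (OO K d)) -
      C x * (pl (XX K d) b 1).map (algebraMap _ (OO K d))
    have hPdeg : Py.natDegree ≤ d b := by
      have h1 : (C (algebraMap _ (OO K d) (w a)) *
          (pl (XX K d) b 0).map (algebraMap _ (OO K d))).natDegree ≤ d b :=
        (natDegree_C_mul_le _ _).trans (natDegree_map_le.trans (natDegree_pl_le _ _ _))
      have h2 : (C x * (pl (XX K d) b 1).map (algebraMap _ (OO K d))).natDegree ≤ d b :=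
        (natDegree_C_mul_le _ _).trans (natDegree_map_le.trans (natDegree_pl_le _ _ _))
      exact (natDegree_sub_le_of_le h1 h2).trans (max_self _).le
    have hPc : Py.coeff (d b) = ell a b x := by
      simp only [Py, coeff_sub, coeff_C_mul, coeff_map, pl_coeff_last]
      rfl
    have hPn : Py.natDegree = d b :=
      le_antisymm hPdeg (le_natDegree_of_ne_zero (by rw [hPc]; exact hellne a b x))
    have hPl : Py.leadingCoeff = ell a b x := by rw [leadingCoeff, hPn, hPc]
    have hPy : (Py.map (algebraMap (OO K d) (MM K d))).eval y = 0 := by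
      have h1 : Py.map (algebraMap (OO K d) (MM K d)) = C (algebraMap _ (MM K d) (w a)) *
          ((pl (XX K d) b 0).map (algebraMap _ (MM K d)) -
            C z * (pl (XX K d) b 1).map (algebraMap _ (MM K d))) := by
        simp only [Py, Polynomial.map_sub, Polynomial.map_mul, map_C, Polynomial.map_map,
          ← IsScalarTower.algebraMap_eq]
        have h2 : algebraMap (OO K d) (MM K d) x = algebraMap _ _ (w a) * z := hx
        have h3 : algebraMap (OO K d) (MM K d) (algebraMap _ (OO K d) (w a)) =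
          algebraMap _ (MM K d) (w a) := rfl
        rw [h2, h3, C_mul]
        ring
      rw [h1, eval_mul, hfibroot b z y hy, mul_zero]
    have hint : IsIntegral (MvPolynomial (Idx d) K) ((ell a b x : MM K d) * y) := by
      have h1 := isIntegral_leadingCoeff_smul Py y (by rw [← eval_map_algebraMap]; exact hPy)
      rw [hPl, Algebra.smul_def] at h1
      exact isIntegral_trans _ h1
    refine ⟨⟨_, hint⟩, rfl, ?_⟩
    intro c hc hxc
    have h4 := root_ratio π Py hPy (ℓ := ell a b x) (x := ⟨_, hint⟩) rfl (by rw [hell]; exact hιt)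
    have h5 : Py.map π = C (S.ι S.t) * (((pl (XX K d) b 0).map S.π₀ -
        C c * (pl (XX K d) b 1).map S.π₀).map S.ι) := by
      have hcomp : π.comp (algebraMap (MvPolynomial (Idx d) K) (OO K d)) = S.ι.comp S.π₀ :=
        RingHom.ext hπ
      simp only [Py, Polynomial.map_sub, Polynomial.map_mul, map_C, Polynomial.map_map]
      rw [hcomp, hπw, hxc, map_mul, C_mul]
      ring
    rw [h5, eval_mul, eval_C] at h4
    obtain ⟨γ, hγ, hγ2⟩ := S.hfib a b c hc _ ((mul_eq_zero.1 h4).resolve_left hιt)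
    refine ⟨γ, hγ, ?_⟩
    rw [hell] at hγ2
    rw [map_mul, ← hγ2, mul_div_cancel₀ _ hιt]
  -- the finite set
  have hroots : ∀ a, {z : MM K d | aeval z (Pool.Agent.Helper61.TH.wr (XX K d) a) = 0}.Finite := by
    intro a
    have h1 : (Pool.Agent.Helper61.TH.wr (XX K d) a).map (algebraMap _ (MM K d)) ≠ 0 := by
      rw [Polynomial.map_ne_zero_iff inj_MM]
      intro h
      apply hlead0 a
      rw [h, leadingCoeff_zero]
    refine ((Pool.Agent.Helper61.TH.wr (XX K d) a).map
      (algebraMap _ (MM K d))).roots.toFinset.finite_toSet.subset ?_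
    intro z hz
    rw [Finset.mem_coe, Multiset.mem_toFinset, mem_roots h1, IsRoot.def, eval_map_algebraMap]
    exact hz
  have hfibs : ∀ a b (z : MM K d), aeval z (Pool.Agent.Helper61.TH.wr (XX K d) a) = 0 →
      {y : MM K d | aeval y (pl (XX K d) b 0) = z * aeval y (pl (XX K d) b 1)}.Finite := by
    intro a b z hz
    refine ((pl (XX K d) b 0).map (algebraMap _ (MM K d)) -
        C z * (pl (XX K d) b 1).map (algebraMap _ (MM K d))).roots.toFinset.finite_toSet.subset ?_
    intro y hy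
    rw [Finset.mem_coe, Multiset.mem_toFinset, mem_roots (hfibne a b z hz)]
    exact hfibroot b z y hy
  let T₁ : Set (OO K d) := {x | ∃ a, x ∈ Sm a}
  have hT₁ : T₁.Finite := by
    have h1 : T₁ = ⋃ a, ((Sm a).toFinset : Set (OO K d)) := by
      ext x
      simp [T₁]
    rw [h1]
    exact Set.finite_iUnion fun a => Finset.finite_toSet _
  let T₂ : Set (OO K d) := {x' | ∃ a b, ∃ x ∈ Sm a, ∃ z : MM K d,
    aeval z (Pool.Agent.Helper61.TH.wr (XX K d) a) = 0 ∧
    (x : MM K d) = algebraMap _ _ (w a) * z ∧ ∃ y : MM K d,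
      aeval y (pl (XX K d) b 0) = z * aeval y (pl (XX K d) b 1) ∧
        (x' : MM K d) = (ell a b x : MM K d) * y}
  have hT₂ : T₂.Finite := by
    have h1 : T₂ ⊆ ⋃ a, ⋃ b, ⋃ x ∈ ((Sm a).toFinset : Set (OO K d)),
        ⋃ z ∈ {z : MM K d | aeval z (Pool.Agent.Helper61.TH.wr (XX K d) a) = 0},
          (Subtype.val : OO K d → MM K d) ⁻¹' ((fun y => (ell a b x : MM K d) * y) ''
            {y : MM K d | aeval y (pl (XX K d) b 0) = z * aeval y (pl (XX K d) b 1)}) := by
      rintro x' ⟨a, b, x, hx, z, hz, -, y, hy, hx'⟩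
      simp only [Set.mem_iUnion]
      exact ⟨a, b, x, by simpa using hx, z, hz, y, hy, hx'.symm⟩
    refine Set.Finite.subset ?_ h1
    refine Set.finite_iUnion fun a => Set.finite_iUnion fun b =>
      (Finset.finite_toSet _).biUnion fun x _ => (hroots a).biUnion fun z hz => ?_
    exact ((hfibs a b z hz).image _).preimage Subtype.val_injective.injOn
  have hsub : ∀ x ∈ T₁ ∪ T₂, ∃ ρ : S.R, π x = S.ι ρ := by
    rintro x (⟨a, hx⟩ | ⟨a, b, x₀, hx₀, z, hz, hxz, y, hy, hx'⟩)
    · obtain ⟨c, -, hc⟩ := hSm2 a x hx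
      exact ⟨_, hc⟩
    · obtain ⟨x', hx'', h2⟩ := hyint a b x₀ z y hxz hy
      have h3 : x = x' := Subtype.ext (by rw [hx', hx''])
      obtain ⟨c, hc, hc2⟩ := hSm2 a x₀ hx₀
      obtain ⟨γ, -, h4⟩ := h2 c hc hc2
      exact ⟨_, by rw [h3]; exact h4⟩
  obtain ⟨g, hg⟩ := exists_galois_set (F := FractionRing (MvPolynomial (Idx d) K)) π S.ι S.hι S.π₀
    hπ' S.σ S.hσ (hT₁.union hT₂) hsub
  -- `g` fixes the critical points
  have hgz : ∀ a (z : MM K d), aeval z (Pool.Agent.Helper61.TH.wr (XX K d) a) = 0 →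
      g z = z := by
    intro a z hz
    obtain ⟨x, hx, hxz⟩ := hSm1 a z hz
    obtain ⟨c, hc, hc2⟩ := hSm2 a x hx
    have h1 := hg x (Or.inl ⟨a, hx⟩) _ hc2
    rw [map_mul, S.hσt, S.hCr a c hc] at h1
    have hgz0 : aeval (g z) (Pool.Agent.Helper61.TH.wr (XX K d) a) = 0 := by
      rw [← aeval_wr_XF] at hz ⊢
      rw [← AlgEquiv.coe_algHom, aeval_algHom_apply, hz, map_zero]
    obtain ⟨x', hx', hxz'⟩ := hSm1 a (g z) hgz0
    have h2 : act (MvPolynomial (Idx d) K) g x = x' := by
      apply Subtype.ext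
      rw [coe_act, hxz', hxz, map_mul]
      congr 1
      rw [IsScalarTower.algebraMap_apply (MvPolynomial (Idx d) K)
        (FractionRing (MvPolynomial (Idx d) K)) (MM K d)]
      exact g.commutes _
    have h3 : x = x' := hSm3 a x hx x' hx' (by rw [hc2, h1, h2])
    have h4 : algebraMap _ (MM K d) (w a) * g z = algebraMap _ (MM K d) (w a) * z := by
      rw [← hxz, h3]
      exact hxz'.symm
    exact mul_left_cancel₀ (hwM a) h4
  refine ⟨g, ?_, ?_, ?_, ?_⟩
  · intro a
    have h1 := (natDegree_wr_gen hd S a).1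
    have h2 : (Pool.Agent.Helper61.TH.wr (XX K d) a).coeff (2 * d a - 2) = w a := by
      rw [hw]
      simp only [leadingCoeff]
      rw [h1]
      congr 1
      have := hd a
      omega
    rw [wr_XF, coeff_map, h2]
    intro h
    apply hlead0 a
    exact IsFractionRing.injective _ (FractionRing (MvPolynomial (Idx d) K)) (by rw [h, map_zero])
  · intro a z hz
    exact hgz a z (by rw [← aeval_wr_XF]; exact hz)
  · intro a b z hz
    exact hlead a b z (by rw [← aeval_wr_XF]; exact hz)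
  · intro a b z y hz hy hgy
    rw [aeval_wr_XF] at hz
    rw [aeval_pl_XF, aeval_pl_XF] at hy
    obtain ⟨x, hx, hxz⟩ := hSm1 a z hz
    obtain ⟨c, hc, hc2⟩ := hSm2 a x hx
    obtain ⟨x', hx', h2⟩ := hyint a b x z y hxz hy
    obtain ⟨γ, hγ, h4⟩ := h2 c hc hc2
    have h5 := hg x' (Or.inr ⟨a, b, x, hx, z, hz, hxz, y, hy, hx'⟩) _ h4
    have hcomm : ∀ f : MvPolynomial (Idx d) K, g (algebraMap _ (MM K d) f) =
        algebraMap _ (MM K d) f := by
      intro f
      rw [IsScalarTower.algebraMap_apply (MvPolynomial (Idx d) K)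
        (FractionRing (MvPolynomial (Idx d) K)) (MM K d)]
      exact g.commutes _
    have h6 : act (MvPolynomial (Idx d) K) g x' = x' := by
      apply Subtype.ext
      rw [coe_act, hx', map_mul, hgy, hellM a b x z hxz, map_mul, map_sub, map_mul, hcomm, hcomm,
        hcomm, hgz a z hz]
    rw [h6, h4] at h5
    have h7 := S.hι h5
    rw [map_mul, S.hσt] at h7
    exact S.hΓ γ hγ (mul_left_cancel₀ S.ht h7)

end star

end

end Pool.Agent.Helper87.TG
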