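import Mathlib
import Pool.Agent.Helper87.TG.Gen

/-!
# TG: block A
-/

set_option autoImplicit false

namespace Pool.Agent.Helper87.TG

open Polynomial Pool.Agent.Helper61.TH Pool.Agent.Helper97.PLN.Pui

noncomputable section

variable {s : ℕ} {d : Fin s → ℕ}

/-- the evaluation at the special coefficient vector -/
def ev (K k : Type) [Field K] [Field k] [Algebra K k] (d : Fin s → ℕ) (E : ℕ) :
    MvPolynomial (Idx d) K →+* PowerSeries k :=
  MvPolynomial.eval₂Hom ((PowerSeries.C).comp (algebraMap K k)) (vv k d E)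

theorem ev_X (K k : Type) [Field K] [Field k] [Algebra K k] (E : ℕ) (q : Idx d) :
    ev K k d E (MvPolynomial.X q) = vv k d E q := by
  unfold ev
  rw [MvPolynomial.coe_eval₂Hom, MvPolynomial.eval₂_X]

theorem exists_spec (K : Type) [Field K] [CharZero K] (hd : ∀ a, 2 ≤ d a) :
    ∃ (Λ : Type) (_ : Field Λ) (_ : IsAlgClosed Λ) (_ : CharZero Λ), Nonempty (Spec K d Λ) := by
  classical
  let k := AlgebraicClosure K
  have hk0 : CharZero k := charZero_of_injective_algebraMap (algebraMap K k).injective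
  set E : ℕ := 2 * ∏ a, d a with hE
  have hprodpos : 1 ≤ ∏ a, d a := Nat.one_le_iff_ne_zero.2
    (Finset.prod_ne_zero_iff.2 fun a _ => by have := hd a; omega)
  have hE2 : 2 ≤ E := by omega
  have hn : ∀ a, 1 ≤ d a - 1 := fun a => by have := hd a; omega
  have hdE : ∀ b, (d b - 1) + 1 ∣ E := fun b => by
    have h1 := hd b
    have h2 : d b - 1 + 1 = d b := by omega
    rw [h2, hE]
    exact (Finset.dvd_prod_of_mem d (Finset.mem_univ b)).mul_left 2
  choose Cr₀ hcard hwp hord using fun a => exists_crit (k := k) (hn a) (show 1 ≤ E by omega)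
  let Big : (PowerSeries k)[X] := ∏ a, ∏ b, ∏ c ∈ Cr₀ a,
    (ff (d b - 1) E - C c * gg (d b - 1))
  have hBig : Big.Monic := monic_prod_of_monic _ _ fun a _ => monic_prod_of_monic _ _ fun b _ =>
    monic_prod_of_monic _ _ fun c _ => monic_fib (hn b) c
  obtain ⟨N, hN, γ, hγ⟩ := puiseux Big hBig
  have hnz : NeZero ((N : ℕ) : k) := ⟨by exact_mod_cast hN⟩
  obtain ⟨ζ, hζ⟩ := HasEnoughRootsOfUnity.exists_primitiveRoot k N
  let Λ := AlgebraicClosure (FractionRing (PowerSeries k))
  have hinjΛ : Function.Injective (algebraMap (PowerSeries k) Λ) := by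
    rw [IsScalarTower.algebraMap_eq (PowerSeries k) (FractionRing (PowerSeries k)) Λ]
    exact (algebraMap (FractionRing (PowerSeries k)) Λ).injective.comp
      (IsFractionRing.injective _ _)
  have hPS0 : CharZero (PowerSeries k) :=
    charZero_of_injective_ringHom (f := (PowerSeries.C : k →+* PowerSeries k))
      PowerSeries.C_injective
  have hΛ0 : CharZero Λ := charZero_of_injective_algebraMap hinjΛ
  have hwrmap : ∀ a, (Pool.Agent.Helper61.TH.wr (XX K d) a).map (ev K k d E) =
      C (tp 1 : PowerSeries k) * wp (d a - 1) E := by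
    intro a
    rw [map_wr]
    have h1 : (fun q : Idx d => ev K k d E (XX K d q)) = vv k d E := funext fun q => ev_X K k E q
    rw [h1]
    exact wr_vv hd E a
  have hplmap : ∀ b x, (pl (XX K d) b x).map (ev K k d E) = fam k d E b x := by
    intro b x
    rw [map_pl]
    have h1 : (fun q : Idx d => ev K k d E (XX K d q)) = vv k d E := funext fun q => ev_X K k E q
    rw [h1]
    exact pl_vv hd E b x
  refine ⟨Λ, inferInstance, inferInstance, hΛ0, ⟨{
    R := PowerSeries k
    π₀ := (xp N hN).comp (ev K k d E)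
    ι := algebraMap (PowerSeries k) Λ
    hι := hinjΛ
    σ := PowerSeries.rescale ζ
    hσ := fun f => rescale_xp hN hζ.pow_eq_one _
    t := xp N hN (tp 1)
    ht := fun h => tp_ne_zero 1 (xp_injective hN (by rw [h, map_zero]))
    hσt := rescale_xp hN hζ.pow_eq_one _
    Cr := fun a => (Cr₀ a).image (xp N hN)
    hCr := ?_
    hwr := ?_
    hcard := ?_
    hlc0 := ?_
    hlc1 := ?_
    Γ := {y | y ∈ γ}
    hΓ := ?_
    hfib := ?_ }⟩⟩
  · intro a c hc
    obtain ⟨c₀, -, rfl⟩ := Finset.mem_image.1 hc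
    exact rescale_xp hN hζ.pow_eq_one _
  · intro a
    have h1 : (Pool.Agent.Helper61.TH.wr (fun q => (MvPolynomial.X q : MvPolynomial (Idx d) K))
        a).map ((xp N hN).comp (ev K k d E)) =
        (C (tp 1 : PowerSeries k) * wp (d a - 1) E).map (xp N hN) := by
      rw [← Polynomial.map_map]
      exact congrArg (Polynomial.map (xp N hN)) (hwrmap a)
    rw [h1, Polynomial.map_mul, map_C, hwp a, Polynomial.map_prod,
      Finset.prod_image (xp_injective hN).injOn]
    simp only [Polynomial.map_sub, map_X, map_C]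
  · intro a
    rw [Finset.card_image_of_injective _ (xp_injective hN), hcard a]
  · intro b
    have h1 : (d b : ℕ) = (d b - 1) + 1 := by have := hd b; omega
    have h2 : vv k d E ⟨b, (0, Fin.last (d b))⟩ = 1 := by
      unfold vv fam
      simp only [Fin.val_last, if_true]
      conv_lhs => rw [h1]
      simp only [Nat.add_sub_cancel]
      exact ff_coeff (hn b)
    rw [RingHom.comp_apply, ev_X, h2, map_one]
  · intro b
    have h1 : (d b : ℕ) = (d b - 1) + 1 := by have := hd b; omega
    have h2 : vv k d E ⟨b, (1, Fin.last (d b))⟩ = 0 := by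
      unfold vv fam
      simp only [Fin.val_last]
      rw [if_neg (by decide)]
      conv_lhs => rw [h1]
      simp only [Nat.add_sub_cancel]
      exact gg_coeff
    rw [RingHom.comp_apply, ev_X, h2, map_zero]
  · intro y hy hyσ
    obtain ⟨g, rfl⟩ := exists_xp hN hζ y hyσ
    have h1 : (Big.map (xp N hN)).eval (xp N hN g) = 0 := by
      rw [hγ, ← coe_evalRingHom, map_multiset_prod, Multiset.map_map]
      apply Multiset.prod_eq_zero
      rw [Multiset.mem_map]
      exact ⟨_, hy, by simp⟩
    rw [Polynomial.eval_map_apply] at h1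
    have h2 : Big.eval g = 0 := xp_injective hN (by rw [h1, map_zero])
    change (∏ a, ∏ b, ∏ c ∈ Cr₀ a, (ff (d b - 1) E - C c * gg (d b - 1) :
      (PowerSeries k)[X])).eval g = 0 at h2
    rw [eval_prod] at h2
    obtain ⟨a, -, h2⟩ := Finset.prod_eq_zero_iff.1 h2
    rw [eval_prod] at h2
    obtain ⟨b, -, h2⟩ := Finset.prod_eq_zero_iff.1 h2
    rw [eval_prod] at h2
    obtain ⟨c, hc, h3⟩ := Finset.prod_eq_zero_iff.1 h2
    rw [eval_sub, eval_mul, eval_C, sub_eq_zero] at h3
    obtain ⟨v, u, hv, hu, rfl⟩ := hord a c hc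
    exact no_sol (hn b) hE2 (hdE b) hv hu g h3
  · intro a b c hc y hy
    obtain ⟨c₀, hc₀, rfl⟩ := Finset.mem_image.1 hc
    have hf : (pl (fun q => (MvPolynomial.X q : MvPolynomial (Idx d) K)) b 0).map
        ((xp N hN).comp (ev K k d E)) = (ff (d b - 1) E).map (xp N hN) := by
      rw [← Polynomial.map_map]
      exact congrArg (Polynomial.map (xp N hN)) (hplmap b 0)
    have hg : (pl (fun q => (MvPolynomial.X q : MvPolynomial (Idx d) K)) b 1).map
        ((xp N hN).comp (ev K k d E)) = (gg (d b - 1)).map (xp N hN) := by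
      rw [← Polynomial.map_map]
      exact congrArg (Polynomial.map (xp N hN)) (hplmap b 1)
    rw [hf, hg] at hy
    have h1 : (((ff (d b - 1) E).map (xp N hN) - C (xp N hN c₀) * (gg (d b - 1)).map (xp N hN)).map
        (algebraMap (PowerSeries k) Λ)) =
        ((ff (d b - 1) E - C c₀ * gg (d b - 1)).map (xp N hN)).map
          (algebraMap (PowerSeries k) Λ) := by
      congr 1
      rw [Polynomial.map_sub, Polynomial.map_mul, map_C]
    rw [h1] at hy
    have h2 : ((Big.map (xp N hN)).map (algebraMap (PowerSeries k) Λ)).eval y = 0 := by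
      have h3 : (ff (d b - 1) E - C c₀ * gg (d b - 1) : (PowerSeries k)[X]) ∣ Big := by
        refine (Finset.dvd_prod_of_mem (fun c => (ff (d b - 1) E - C c * gg (d b - 1) :
          (PowerSeries k)[X])) hc₀).trans ?_
        refine (Finset.dvd_prod_of_mem (fun b => ∏ c ∈ Cr₀ a, (ff (d b - 1) E - C c * gg (d b - 1) :
          (PowerSeries k)[X])) (Finset.mem_univ b)).trans ?_
        exact Finset.dvd_prod_of_mem (fun a => ∏ b, ∏ c ∈ Cr₀ a,
          (ff (d b - 1) E - C c * gg (d b - 1) : (PowerSeries k)[X])) (Finset.mem_univ a)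
      obtain ⟨Q, hQ⟩ := h3
      rw [hQ, Polynomial.map_mul, Polynomial.map_mul, eval_mul, hy, zero_mul]
    rw [hγ, ← coe_mapRingHom, map_multiset_prod, Multiset.map_map, ← coe_evalRingHom,
      map_multiset_prod, Multiset.map_map, Multiset.prod_eq_zero_iff] at h2
    obtain ⟨x, hx, hx2⟩ := Multiset.mem_map.1 h2
    simp only [Function.comp_apply, coe_mapRingHom, Polynomial.map_sub, map_X, map_C,
      coe_evalRingHom, eval_sub, eval_X, eval_C, sub_eq_zero] at hx2
    exact ⟨x, hx, hx2⟩

/-- **Block A.** -/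
theorem blockA (K : Type) [Field K] [CharZero K] {s : ℕ} (d : Fin s → ℕ) (hd : ∀ a, 2 ≤ d a) :
    ∃ γ : AlgebraicClosure (FractionRing (MvPolynomial (Idx d) K)) ≃ₐ[
        FractionRing (MvPolynomial (Idx d) K)]
        AlgebraicClosure (FractionRing (MvPolynomial (Idx d) K)),
      Star (fun q => algebraMap (MvPolynomial (Idx d) K) (FractionRing (MvPolynomial (Idx d) K))
        (MvPolynomial.X q)) γ := by
  obtain ⟨Λ, _, _, _, ⟨S⟩⟩ := exists_spec K hd
  exact star_of_spec hd S

end

end Pool.Agent.Helper87.TG
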